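import Pool.Agent.H516R2.EQP5.Props
import Pool.Agent.H516R2.EQP.AS
import Pool.Agent.H516R2.EQP2.GO

/-!
# Task AT: asymptotics
-/

set_option autoImplicit false

namespace Pool.Agent.H516R2.EQP5

open Pool.Agent.NPC Pool.Agent.H620R2.Gauge Finset H568R2 Pool.Agent.H676 Pool.Agent.H516R2.EQP
  Pool.Agent.H516R2.EQP2 Pool.Agent.H516R2.EQP3 Pool.Agent.H516R2.EQP4

theorem AT_two_pow (h : ℕ) (hh : 5 ≤ h) : 4 * h + 12 ≤ 2 ^ h := by
  induction h, hh using Nat.le_induction with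
  | base => norm_num
  | succ n hn ih =>
    rw [pow_succ]
    omega

theorem AT_core (κ E J : ℕ) (t : ℝ) (h20 : 20 ≤ κ) (ht1 : 1 ≤ t) (htE : 24 * t ≤ 2 ^ E)
    (hE : 18 + 2 * (J * E) + 2 * E ≤ κ) :
    1200 * (((24 * t) ^ J) ^ 2 * (t ^ 2 + 1)) / 2 ^ κ + 210000 / 16 ^ κ ≤ 1 / 100 ∧
    68 * 4 ^ κ * (1 - (1 / (24 * t)) ^ J) ^ (2 ^ κ / 200) ≤ 1 / 100 := by
  constructor
  · have h1 : ((24 * t) ^ J) ^ 2 ≤ (((2 : ℝ) ^ E) ^ J) ^ 2 := by gcongr
    have h2 : t ^ 2 + 1 ≤ ((2 : ℝ) ^ E) ^ 2 := by nlinarith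
    have h3 : ((24 * t) ^ J) ^ 2 * (t ^ 2 + 1) ≤ (2 : ℝ) ^ (2 * (J * E) + 2 * E) := by
      calc ((24 * t) ^ J) ^ 2 * (t ^ 2 + 1) ≤ (((2 : ℝ) ^ E) ^ J) ^ 2 * ((2 : ℝ) ^ E) ^ 2 := by
            gcongr
        _ = (2 : ℝ) ^ (2 * (J * E) + 2 * E) := by
            rw [← pow_mul, ← pow_mul, ← pow_mul, ← pow_add]
            congr 1
            ring
    have hfirst : 1200 * (((24 * t) ^ J) ^ 2 * (t ^ 2 + 1)) / 2 ^ κ ≤ 1 / 200 := by
      rw [div_le_iff₀ (by positivity)]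
      have h4 : (2 : ℝ) ^ (18 + (2 * (J * E) + 2 * E)) ≤ 2 ^ κ :=
        pow_le_pow_right₀ (by norm_num) (by omega)
      rw [pow_add] at h4
      have h5 : (2 : ℝ) ^ 18 = 262144 := by norm_num
      rw [h5] at h4
      have h6 : (0 : ℝ) < 2 ^ (2 * (J * E) + 2 * E) := by positivity
      linarith
    have hsecond : (210000 : ℝ) / 16 ^ κ ≤ 1 / 200 := by
      have h1 : (16 : ℝ) ^ 20 ≤ 16 ^ κ := pow_le_pow_right₀ (by norm_num) h20
      rw [div_le_iff₀ (by positivity)]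
      have h2 : (210000 : ℝ) ≤ 1 / 200 * 16 ^ 20 := by norm_num
      linarith
    linarith
  · set x : ℝ := (1 / (24 * t)) ^ J with hx
    set s : ℕ := 2 ^ κ / 200 with hs
    have hx0 : 0 < x := by positivity
    have hx1 : x ≤ 1 := by
      rw [hx]
      apply pow_le_one₀ (by positivity)
      rw [div_le_one (by positivity)]
      linarith
    have hsr : (2 : ℝ) ^ κ / 400 ≤ s := by
      have h1 : 2 ^ κ < 200 * (s + 1) := by
        rw [hs]
        exact Nat.lt_mul_div_succ _ (by norm_num)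
      have h2 : (2 : ℝ) ^ κ < 200 * ((s : ℝ) + 1) := by exact_mod_cast h1
      have h3 : (2 : ℝ) ^ 20 ≤ 2 ^ κ := pow_le_pow_right₀ (by norm_num) h20
      have h4 : (400 : ℝ) ≤ 2 ^ 20 := by norm_num
      linarith
    have hxs : 2 * (κ : ℝ) + 10 ≤ x * s := by
      have hxE : 1 / (2 : ℝ) ^ (J * E) ≤ x := by
        have h1 : 1 / (2 : ℝ) ^ E ≤ 1 / (24 * t) := one_div_le_one_div_of_le (by positivity) htE
        have h2 : (1 / (2 : ℝ) ^ E) ^ J ≤ x := by
          rw [hx]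
          exact pow_le_pow_left₀ (by positivity) h1 J
        refine le_trans (le_of_eq ?_) h2
        rw [div_pow, one_pow, ← pow_mul, mul_comm E J]
      have hκ2 : J * E + (9 + κ / 2) ≤ κ := by omega
      have h4 : (2 : ℝ) ^ (κ / 2) ≤ x * s := by
        have h5 : (2 : ℝ) ^ (J * E) * (2 ^ 9 * 2 ^ (κ / 2)) ≤ 2 ^ κ := by
          rw [← pow_add, ← pow_add]
          exact pow_le_pow_right₀ (by norm_num) hκ2
        have h6 : (2 : ℝ) ^ (J * E) * (2 ^ (κ / 2)) ≤ s := by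
          have h7 : (0 : ℝ) < (2 : ℝ) ^ (J * E) * (2 ^ (κ / 2)) := by positivity
          norm_num at h5
          nlinarith
        calc (2 : ℝ) ^ (κ / 2) = 1 / (2 : ℝ) ^ (J * E) * ((2 : ℝ) ^ (J * E) * (2 ^ (κ / 2))) := by
              field_simp
          _ ≤ x * s := by gcongr
      have h8 : 2 * κ + 10 ≤ 2 ^ (κ / 2) := by
        have := AT_two_pow (κ / 2) (by omega)
        omega
      have h9 : 2 * (κ : ℝ) + 10 ≤ (2 : ℝ) ^ (κ / 2) := by exact_mod_cast h8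
      linarith
    have hexp : (1 - x) ^ s ≤ Real.exp (-(x * s)) := by
      calc (1 - x) ^ s ≤ (Real.exp (-x)) ^ s := by
            apply pow_le_pow_left₀ (by linarith)
            have := Real.add_one_le_exp (-x)
            linarith
        _ = Real.exp (-(x * s)) := by rw [← Real.exp_nat_mul]; congr 1; ring
    calc 68 * 4 ^ κ * (1 - x) ^ s ≤ 68 * 4 ^ κ * Real.exp (-(x * s)) := by gcongr
      _ ≤ 1 / 100 := AS_exp hxs

theorem AT : St_AT := by
  intro a b J P hb hab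
  set d := P.natDegree with hd
  set C := P.eval 1 with hC
  obtain ⟨m₁, hm₁⟩ := Filter.eventually_atTop.1 (AS_ev 1 a)
  -- K bounds everything
  set K : ℕ := 18 + 2 * (J * (5 + C + d)) + 2 * (5 + C + d) with hK
  refine ⟨max m₁ (max 20 (2 * K)), fun m hm => ?_⟩
  have hm1 : m₁ ≤ m := le_trans (le_max_left _ _) hm
  have hm2 : 20 ≤ m := le_trans (le_trans (le_max_left _ _) (le_max_right _ _)) hm
  have hm3 : 2 * K ≤ m := le_trans (le_trans (le_max_right _ _) (le_max_right _ _)) hm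
  have hmb : 1 ≤ m ^ b := Nat.one_le_pow _ _ (by omega)
  have hmb' : m ≤ m ^ b := by
    calc m = m ^ 1 := (pow_one m).symm
      _ ≤ m ^ b := Nat.pow_le_pow_right (by omega) hb
  have hma : m * m ^ b ≤ m ^ a := by
    calc m * m ^ b = m ^ (b + 1) := by rw [pow_succ, mul_comm]
      _ ≤ m ^ a := Nat.pow_le_pow_right (by omega) hab
  have hKm : K * m ^ b ≤ m ^ a := by
    refine le_trans (Nat.mul_le_mul_right _ ?_) hma
    omega
  have h20 : 20 ≤ m ^ a := by nlinarith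
  -- the bound of t
  set E : ℕ := 5 + C + d * m ^ b with hE
  have hEκ : 18 + 2 * (J * E) + 2 * E ≤ m ^ a := by
    refine le_trans ?_ hKm
    have h1 : E ≤ (5 + C + d) * m ^ b := by
      rw [hE]
      nlinarith
    have h2 : J * E ≤ J * ((5 + C + d) * m ^ b) := Nat.mul_le_mul_left _ h1
    calc 18 + 2 * (J * E) + 2 * E ≤ 18 * m ^ b + 2 * (J * ((5 + C + d) * m ^ b)) +
          2 * ((5 + C + d) * m ^ b) := by omega
      _ = K * m ^ b := by rw [hK]; ring
  have htle : 24 * P.eval (2 ^ m ^ b) ≤ 2 ^ E := by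
    have h1 := AS_poly_le P (2 ^ m ^ b) Nat.one_le_two_pow
    have h2 : C ≤ 2 ^ C := Nat.lt_two_pow_self.le
    calc 24 * P.eval (2 ^ m ^ b) ≤ 2 ^ 5 * (2 ^ C * (2 ^ m ^ b) ^ d) := by
          refine Nat.mul_le_mul (by norm_num) (h1.trans (Nat.mul_le_mul_right _ h2))
      _ = 2 ^ E := by
          rw [← pow_mul, ← pow_add, ← pow_add, hE]
          congr 1
          ring
  refine ⟨h20, ?_, ?_, ?_⟩
  · have h1 := hm₁ m hm1
    have h2 : m ^ a ≤ 2 ^ m := by
      have h3 : ((m : ℝ)) ^ a ≤ 2 ^ m := by linarith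
      exact_mod_cast h3
    exact h2.trans (Nat.pow_le_pow_right (by norm_num) hmb')
  · calc P.eval (2 ^ m ^ b) ≤ 24 * P.eval (2 ^ m ^ b) := by omega
      _ ≤ 2 ^ E := htle
      _ ≤ 2 ^ m ^ a := Nat.pow_le_pow_right (by norm_num) (by omega)
      _ ≤ 4 ^ m ^ a := Nat.pow_le_pow_left (by norm_num) _
  · intro t ht ht1
    have ht1r : (1 : ℝ) ≤ (t : ℝ) := by exact_mod_cast ht1
    have htr : 24 * (t : ℝ) ≤ 2 ^ E := by
      rw [← ht] at htle
      exact_mod_cast htle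
    exact AT_core (m ^ a) E J t h20 ht1r htr hEκ

end Pool.Agent.H516R2.EQP5
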