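import Pool.Agent.H516R2.EQP5.Props
import Pool.Agent.H516R2.EQP3.GY
import Pool.Agent.H516R2.EQP.DE

/-! Quantified oracle algorithms are good functions of the content of a block (adapted from
`EQP3.GY` by helper267) -/

set_option autoImplicit false

namespace Pool.Agent.H516R2.EQP5

open Pool.Agent.NPC Pool.Agent.H620R2.Gauge Finset H568R2 Pool.Agent.H676 Pool.Agent.H516R2.EQP
  Pool.Agent.H516R2.EQP2 Pool.Agent.H516R2.EQP3 Pool.Agent.H516R2.EQP4

/-- every bit of `pm a b m x B` is constant or a variable -/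
theorem GI_form (a b m : ℕ) (z : List Bool) (B : Oracle) :
    (∃ c, ∀ x : Cube (m ^ a) → Bool, pm a b m x B z = c) ∨
    ∃ (i : Cube (m ^ a)) (c : Bool), ∀ x : Cube (m ^ a) → Bool, pm a b m x B z = (x i ^^ c) := by
  by_cases h : InI a b m z
  · rcases DE_form (m ^ a) B (z.drop (2 ^ m ^ b + 1)) with ⟨c, hc⟩ | ⟨i, c, hc⟩
    · exact Or.inl ⟨c, fun x => by rw [pm, if_pos h, hc]⟩
    · exact Or.inr ⟨i, c, fun x => by rw [pm, if_pos h, hc, Bool.xor_comm]⟩
  · exact Or.inl ⟨B z, fun x => by rw [pm, if_neg h]⟩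

/-- every bit of the oracle is a decision tree of depth one -/
theorem GI_bit {I : Type} [Fintype I] [DecidableEq I] (a b m : ℕ) (B : Oracle)
    (φ : (I → Bool) → Cube (m ^ a) → Bool) (hφ : ∀ i, DTr 1 (fun v => φ v i)) (w : List Bool) :
    DTr 1 (fun v => pm a b m (φ v) B w) := by
  rcases GI_form a b m w B with ⟨c, hc⟩ | ⟨i, c, hc⟩
  · exact DTr.const ⟨c, fun v => hc _⟩
  · have h1 := (hφ i).comp (fun b => b ^^ c)
    refine (congrArg (DTr 1) (funext fun v => ?_)).mp h1
    exact (hc _).symm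

open Classical in
theorem GI_main (a b m : ℕ) (M : Alg) (k : ℕ) (y : List Bool) (l t : ℕ)
    (ht : y.length + k * (2 * l + 1) + 2 + 4 * m ^ a + k + 1 ≤ t)
    (htM : M.p.eval (y.length + k * (2 * l + 1)) ≤ t) (B : Oracle) (b' c : Bool)
    {I : Type} [Fintype I] [DecidableEq I]
    (φ : (I → Bool) → Cube (m ^ a) → Bool) (hφ : ∀ i, DTr 1 (fun v => φ v i)) :
    Ex (wq ((1 / (24 * (t : ℝ))) ^ k)) (fun ρ : Restr I =>
      if ¬ DTr t (fun v => QO M l k b' y (pm a b m (φ (ov ρ v)) B) ^^ c) then (1 : ℝ) else 0) ≤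
      (1 / 16) ^ m ^ a := by
  have ht1 : 1 ≤ t := by omega
  have ht' : (1 : ℝ) ≤ t := by exact_mod_cast ht1
  set q : ℝ := 1 / (24 * (t : ℝ)) with hq
  have hq0 : 0 ≤ q := by positivity
  have hq1 : q ≤ 1 / 3 := by
    rw [hq, div_le_div_iff₀ (by positivity) (by norm_num)]
    linarith
  have hqJ0 : 0 ≤ q ^ k := pow_nonneg hq0 _
  have hqJ1 : q ^ k ≤ 1 := pow_le_one₀ hq0 (by linarith)
  have key := switch_alt (I := I) ht1 hq0 hq1 l
    (fun y' v => decide (M.out (pm a b m (φ v) B) y' = some [true])) k y.length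
    (fun y' hy' => by
      have h1 := RT I (fun v => pm a b m (φ v) B) M y' 1 (fun w => GI_bit a b m B φ hφ w)
      rw [one_mul] at h1
      exact h1.mono ((eval_mono M.p hy').trans htM))
  refine (le_trans ?_ key).trans (GY_arith (m ^ a) k (y.length + k * (2 * l + 1)) t ht)
  refine Ex_mono (wq_nonneg hqJ0 hqJ1) fun ρ => ?_
  by_cases h : ∀ y' : List Bool, y'.length ≤ y.length → ∀ b₂ : Bool, DTr t (rs (QF l
      (fun y' v => decide (M.out (pm a b m (φ v) B) y' = some [true])) k b₂ y') ρ)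
  · have h1 : DTr t (fun v => QO M l k b' y (pm a b m (φ (ov ρ v)) B) ^^ c) := by
      have h2 := (h y le_rfl b').comp (fun b => b ^^ c)
      refine (congrArg (DTr t) (funext fun v => ?_)).mp h2
      have h3 := Pool.Agent.H516R2.EQP.DS.2.2.1 (List Bool) I (fun v => pm a b m (φ v) B) l
        (fun y' (A' : List Bool → Bool) => decide (M.out A' y' = some [true])) k b' y (ov ρ v)
      exact congrArg (· ^^ c) h3.symm
    rw [if_neg (not_not.2 h1), if_neg (not_not.2 h)]
  · rw [if_pos h]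
    split_ifs <;> norm_num

theorem GI_all : St_GI := by
  intro a b M k p q
  refine ⟨M.p.comp (q + Polynomial.C k * (Polynomial.C 2 * p + 1)) +
    (q + Polynomial.C k * (Polynomial.C 2 * p + 1)) + Polynomial.C 4 * Polynomial.X +
    Polynomial.C (k + 3), ?_⟩
  intro m hm y l hy hl
  obtain ⟨n, hn⟩ : ∃ n : ℕ, n = 2 ^ m ^ b := ⟨_, rfl⟩
  rw [← hn] at hm hy hl ⊢
  set P := M.p.comp (q + Polynomial.C k * (Polynomial.C 2 * p + 1)) +
    (q + Polynomial.C k * (Polynomial.C 2 * p + 1)) + Polynomial.C 4 * Polynomial.X +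
    Polynomial.C (k + 3) with hP
  have hPe : P.eval n = M.p.eval (q.eval n + k * (2 * p.eval n + 1)) +
      (q.eval n + k * (2 * p.eval n + 1)) + 4 * n + (k + 3) := by
    rw [hP]
    simp [Polynomial.eval_comp]
  have hT : y.length + k * (2 * l + 1) ≤ q.eval n + k * (2 * p.eval n + 1) :=
    Nat.add_le_add hy (Nat.mul_le_mul_left _ (by omega))
  have hMT := eval_mono M.p hT
  have ht : y.length + k * (2 * l + 1) + 2 + 4 * m ^ a + k + 1 ≤ P.eval n := by
    rw [hPe]
    omega
  have htM : M.p.eval (y.length + k * (2 * l + 1)) ≤ P.eval n := by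
    rw [hPe]
    omega
  refine ⟨by omega, fun B b' c c0 => ⟨?_, ?_⟩⟩
  · intro z ρ₀
    exact GI_main a b m M k y l _ ht htM B b' c
      (fun p i => Sum.elim (ov ρ₀ p) z i ^^ c0 i) (fun i => by
        rcases i with j | j
        · simp only [Sum.elim_inl]
          cases hρ : ρ₀ j with
          | none =>
            refine Or.inr ⟨j, fun b => ⟨b ^^ c0 (Sum.inl j), fun v => ?_⟩⟩
            simp [ov, hρ]
          | some b =>
            refine DTr.const ⟨b ^^ c0 (Sum.inl j), fun v => ?_⟩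
            simp [ov, hρ]
        · exact DTr.const ⟨z j ^^ c0 (Sum.inr j), fun v => rfl⟩)
  · intro p
    exact GI_main a b m M k y l _ ht htM B b' c
      (fun z i => Sum.elim p z i ^^ c0 i) (fun i => by
        rcases i with j | j
        · exact DTr.const ⟨p j ^^ c0 (Sum.inl j), fun v => rfl⟩
        · refine Or.inr ⟨j, fun b => ⟨b ^^ c0 (Sum.inr j), fun v => ?_⟩⟩
          simp)

theorem GI (_hp : St_PI) : St_GI := GI_all

end Pool.Agent.H516R2.EQP5
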