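import Pool.Agent.H516R2.EQP5.Props
import Pool.Agent.H516R2.EQP.H1
import Pool.Agent.H516R2.EQP2.H2p

/-!
# Hardness with explicit parameters
(adapted from `EQP2/H1p.lean` and `EQP2/H2p.lean`)
-/

set_option autoImplicit false

namespace Pool.Agent.H516R2.EQP5

open Pool.Agent.NPC Pool.Agent.H620R2.Gauge Finset H568R2 Pool.Agent.H676 Pool.Agent.H516R2.EQP
  Pool.Agent.H516R2.EQP2 Pool.Agent.H516R2.EQP3 Pool.Agent.H516R2.EQP4

theorem H2t_aux (hl : St_L2p) (hz : St_Z3p) (hcm : St_CM) (κ t J : ℕ) (h20 : 20 ≤ κ)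
    (ht : 1 ≤ t) (hp4 : t ≤ 4 ^ κ)
    (hA1 : 1200 * (((24 * (t : ℝ)) ^ J) ^ 2 * ((t : ℝ) ^ 2 + 1)) / 2 ^ κ + 210000 / 16 ^ κ ≤
      1 / 100)
    (hA2 : 68 * 4 ^ κ * (1 - (1 / (24 * (t : ℝ))) ^ J) ^ (2 ^ κ / 200) ≤ 1 / 100)
    (h : (Cube κ → Bool) → Bool) (hgood : Good κ t J h) (hyes : ∀ a, Yes a → h a = true) :
    4 / 5 ≤ av (br h) := by
  obtain ⟨hgood1, hgood2⟩ := hgood
  have ht0 : (0 : ℝ) < t := by exact_mod_cast ht
  have ht1 : (1 : ℝ) ≤ t := by exact_mod_cast ht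
  set q : ℝ := 1 / (24 * (t : ℝ)) with hq
  have hq0 : 0 < q := by positivity
  have hq3 : q ≤ 1 / 3 := by
    rw [hq]
    exact one_div_le_one_div_of_le (by norm_num) (by linarith)
  have hQ0 : 0 < q ^ J := pow_pos hq0 J
  have hQ1 : q ^ J ≤ 1 := pow_le_one₀ hq0.le (by linarith)
  have hε0 : (0 : ℝ) ≤ (1 / 16) ^ κ := by positivity
  set g : (U κ ⊕ U κ → Bool) → ℝ := fun a =>
    av (fun z : W κ → Bool => br h (Sum.elim a z)) with hg
  -- the average of `g`
  have havg : av (br h) = av g := by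
    rw [H1_av_sum (I := U κ ⊕ U κ) (J := W κ)]
  have hg01 : ∀ a, 0 ≤ g a ∧ g a ≤ 1 := fun a =>
    ⟨H1_av_nonneg fun z => (H1_br01 _ _).1, av_le fun z => (H1_br01 _ _).2⟩
  have hcW : Fintype.card (W κ) = 8 ^ κ := B_cardW κ
  have hcU : Fintype.card (U κ) = 4 ^ κ := B_cardU κ
  have h48 : (4 : ℕ) ^ κ * 2 ^ κ = 8 ^ κ := by
    rw [← mul_pow]
    norm_num
  have h820 : (8 : ℝ) ^ 20 ≤ 8 ^ κ := pow_le_pow_right₀ (by norm_num) h20
  have h1620 : (16 : ℝ) ^ 20 ≤ 16 ^ κ := pow_le_pow_right₀ (by norm_num) h20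
  -- (1)
  have step1 : ∀ a, |(FF a : ℝ) / 8 ^ κ - 2 / 5| ≤ 11 / 2 ^ κ → 1 - 3 / 100 ≤ g a := by
    intro a ha
    have hs := H1_abs a ha
    have hz' := hz (W κ) t (33 * 4 ^ κ) (2 ^ κ / 200) (q ^ J) ((1 / 16) ^ κ)
      (2 * 8 ^ κ - 5 * FF a) (fun z => h (Sum.elim a z)) ht hQ0.le hQ1
      (by rw [hcW]; exact Nat.one_le_pow _ _ (by norm_num))
      (hgood2 a) ?_ ?_ ?_ ?_
    · have hgg : g a = av (br (fun z => h (Sum.elim a z))) := by
        refine congrArg av (funext fun z => ?_)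
        rfl
      rw [hgg]
      refine le_trans ?_ hz'
      rw [hcW]
      have h4 : (4 : ℝ) / ((8 ^ κ : ℕ) : ℝ) ≤ 1 / 1000 := by
        push_cast
        rw [div_le_div_iff₀ (by positivity) (by norm_num)]
        have : (8 : ℝ) ^ 20 = 1152921504606846976 := by norm_num
        linarith
      have h5 : ((1 : ℝ) / 16) ^ κ ≤ 1 / 1000 := by
        rw [one_div_pow]
        apply one_div_le_one_div_of_le (by norm_num)
        have : (16 : ℝ) ^ 20 = 1208925819614629174706176 := by norm_num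
        linarith
      have hqk0 : 0 ≤ 1 - q ^ J := by linarith
      have h6 : 2 * (((33 * 4 ^ κ : ℕ) : ℝ) + (t : ℝ)) * (1 - q ^ J) ^ (2 ^ κ / 200) ≤ 1 / 100 := by
        refine le_trans ?_ hA2
        have h7 : (t : ℝ) ≤ 4 ^ κ := by exact_mod_cast hp4
        have h8 : 2 * (((33 * 4 ^ κ : ℕ) : ℝ) + (t : ℝ)) ≤ 68 * 4 ^ κ := by
          push_cast
          linarith
        exact mul_le_mul_of_nonneg_right h8 (pow_nonneg hqk0 _)
      linarith
    · -- parity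
      rw [hcW]
      have h1 : Even (FF a) := H1_FF_even (by omega) a
      have h2 : Even ((8 : ℤ) ^ κ) := Int.even_pow.2 ⟨by decide, by omega⟩
      push_cast
      exact ((h2.mul_left 2).sub (h1.mul_left 5)).add h2
    · intro z hz1
      exact hyes _ (H1_yes a z hz1)
    · rw [hcW]
      push_cast at hs ⊢
      have h1 := H1_sqrt κ
      have h2 : (0 : ℝ) < 4 ^ κ := by positivity
      linarith
    · rw [hcW, ← h48]
      have h1 : 200 * (2 ^ κ / 200) ≤ 2 ^ κ := Nat.mul_div_le _ _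
      have h2 : 33 * 4 ^ κ + t ≤ 34 * 4 ^ κ := by omega
      calc 4 * (33 * 4 ^ κ + t) * (2 ^ κ / 200) ≤ 4 * (34 * 4 ^ κ) * (2 ^ κ / 200) := by gcongr
        _ = 4 ^ κ * (136 * (2 ^ κ / 200)) := by ring
        _ ≤ 4 ^ κ * 2 ^ κ := by
          gcongr
          omega
  -- (2)
  set ℓ : ℝ := ((24 * (t : ℝ)) ^ J) ^ 2 * ((t : ℝ) ^ 2 + 1) with hℓ
  have step2 : ∀ ρ, L12 (rr g ρ) ≤ ℓ := by
    intro ρ
    have h1 : rr g ρ = fun x => av (fun z : W κ → Bool =>
        rr (br (fun a' => h (Sum.elim a' z))) ρ x) := by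
      funext x
      refine congrArg av (funext fun z => ?_)
      rfl
    rw [h1]
    refine (H1_L12_av _).trans (av_le fun z => ?_)
    have h2 := hl (U κ) t (q ^ J) ((1 / 16) ^ κ) (fun a' => h (Sum.elim a' z)) hQ0 hQ1 hε0
      (hgood1 z) ρ
    refine h2.trans ?_
    rw [hcU]
    have h3 : 1 / q ^ J = (24 * (t : ℝ)) ^ J := by
      rw [hq, one_div_pow, one_div_one_div]
    rw [h3]
    have h4 : ((1 : ℝ) / 16) ^ κ * (((4 ^ κ : ℕ) : ℝ)) ^ 2 ≤ 1 := by
      have h5 : (((4 ^ κ : ℕ) : ℝ)) ^ 2 = 16 ^ κ := by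
        push_cast
        rw [← pow_mul, mul_comm κ 2, pow_mul]
        norm_num
      rw [h5, ← mul_pow]
      norm_num
    rw [hℓ]
    gcongr
  -- (3)
  have h3 := hcm κ g ℓ (3 / 100) h20 hg01 (by positivity) step2 (by norm_num) (by norm_num) step1
  rw [havg]
  linarith


theorem H2t (_hB : St_B) (hl : St_L2p) (hz : St_Z3p) (hcm : St_CM) : St_H2t := by
  intro κ t J h20 ht hp4 hA1 hA2 h hg
  have h0 := H2t_aux hl hz hcm κ t J h20 ht hp4 hA1 hA2
  by_contra hcon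
  rw [not_or] at hcon
  obtain ⟨hy, hn⟩ := hcon
  have hy' : ∀ a, Yes a → h a = true := by
    intro a ha
    by_contra h'
    exact hy ⟨a, ha, by simpa using h'⟩
  have hn' : ∀ a, No a → h a = false := by
    intro a ha
    by_contra h'
    exact hn ⟨a, ha, by simpa using h'⟩
  have g0 : Good κ t J h := by
    have := hg (fun _ => false)
    simpa using this
  have e1 := h0 h g0 hy'
  have g1 : Good κ t J (fun a => !h (H2_e a)) := H2p_not (hg H2_c)
  have e2 := h0 (fun a => !h (H2_e a)) g1 (fun a ha => by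
    have h3 : h (H2_e a) = false := hn' _ (H2_yes a ha)
    rw [h3]; rfl)
  have e3 : av (br (fun a => !h (H2_e a))) = 1 - av (br h) := by
    have e4 : br (fun a => !h (H2_e a)) = fun a => 1 - br h (H2_e a) := by
      funext a
      change (if (!h (H2_e a)) = true then (1 : ℝ) else 0) =
        1 - if h (H2_e a) = true then (1 : ℝ) else 0
      cases hh : h (H2_e a) <;> simp
    rw [e4]
    exact H2_av _ _
  rw [e3] at e2
  linarith

end Pool.Agent.H516R2.EQP5
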