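import Pool.Agent.H516R2.EQP5.Props
import Pool.Agent.H516R2.EQP.DE

/-! PI: facts about the blocks (adapted from EQP3/PU). -/

set_option autoImplicit false

namespace Pool.Agent.H516R2.EQP5

open Pool.Agent.NPC Pool.Agent.H620R2.Gauge Finset H568R2 Pool.Agent.H676 Pool.Agent.H516R2.EQP
  Pool.Agent.H516R2.EQP2 Pool.Agent.H516R2.EQP3 Pool.Agent.H516R2.EQP4

theorem PI_bit {K i : ℕ} {z : List Bool}
    (h : z.take (K + 1) = List.replicate K false ++ [true]) (hi : i ≤ K) :
    z[i]? = some (decide (i = K)) := by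
  have h1 : (z.take (K + 1))[i]? = z[i]? := by
    rw [List.getElem?_take, if_pos (by omega)]
  rw [← h1, h]
  rcases Nat.lt_or_ge i K with h2 | h2
  · rw [List.getElem?_append_left (by simpa using h2)]
    have h3 : ¬ i = K := by omega
    simp [h2, h3]
  · have h3 : i = K := by omega
    subst h3
    simp

theorem PI_prefix {K K' : ℕ} {z : List Bool}
    (h : z.take (K + 1) = List.replicate K false ++ [true])
    (h' : z.take (K' + 1) = List.replicate K' false ++ [true]) : K = K' := by
  rcases Nat.lt_trichotomy K K' with h1 | h1 | h1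
  · have h2 := PI_bit h le_rfl
    have h3 := PI_bit h' h1.le
    rw [h2] at h3
    simp at h3
    omega
  · exact h1
  · have h2 := PI_bit h' le_rfl
    have h3 := PI_bit h h1.le
    rw [h2] at h3
    simp at h3
    omega

theorem PI_inj {a b : ℕ} (hb : 1 ≤ b) (m m' : ℕ) (z : List Bool) (h : InI a b m z)
    (h' : InI a b m' z) : m = m' := by
  have h1 : 2 ^ m ^ b = 2 ^ m' ^ b := PI_prefix h.1 h'.1
  have h2 : m ^ b = m' ^ b := Nat.pow_right_injective le_rfl h1
  exact Nat.pow_left_injective (by omega) h2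

theorem PI_off {a b : ℕ} (m : ℕ) (z : List Bool) (x : Cube (m ^ a) → Bool) (B : Oracle)
    (h : ¬ InI a b m z) : pm a b m x B z = B z := by
  unfold pm
  rw [if_neg h]

theorem PI_mem {a b : ℕ} (m : ℕ) (w : List Bool) (hw : w.length = 4 + 3 * m ^ a) :
    InI a b m (List.replicate (2 ^ m ^ b) false ++ true :: w) := by
  constructor
  · rw [List.take_append]
    have e : 2 ^ m ^ b + 1 - (List.replicate (2 ^ m ^ b) false).length = 1 := by simp
    rw [e]
    simp
  · simp only [List.length_append, List.length_replicate, List.length_cons, hw]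
    omega

theorem PI_drop (K : ℕ) (w : List Bool) :
    (List.replicate K false ++ true :: w).drop (K + 1) = w := by
  rw [List.drop_append]
  simp

theorem PI_al (hal : St_AL) {a b : ℕ} (m : ℕ) (A A' : Oracle)
    (h : ∀ z, InI a b m z → A z = A' z) : alI a b m A = alI a b m A' := by
  unfold alI
  refine hal.1 _ _ _ fun w hw => ?_
  unfold tlI
  exact h _ (PI_mem m w hw)

theorem PI_val (hal : St_AL) {a b : ℕ} (m : ℕ) (x : Cube (m ^ a) → Bool) (B : Oracle) :
    alI a b m (pm a b m x B) = ((2 * 8 ^ (m ^ a) + 5 * FF (fun i => x (Sum.inl i)) +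
      SS (fun w => x (Sum.inr w)) : ℤ) : ℝ) / 8 ^ (m ^ a + 1) := by
  rw [← hal.2.2 (m ^ a) B x]
  unfold alI
  refine hal.1 _ _ _ fun w hw => ?_
  unfold tlI
  show pm a b m x B (List.replicate (2 ^ m ^ b) false ++ true :: w) = emb (m ^ a) B x w
  unfold pm
  rw [if_pos (PI_mem m w hw), PI_drop]

open Classical in
theorem PI (hal : St_AL) : St_PI := by
  intro a b hb
  refine ⟨PI_inj hb, PI_off, PI_al hal, fun m x B => ⟨fun h => ?_, fun h => ?_⟩, ?_, ?_⟩
  · have h1 : (2 * 8 ^ (m ^ a) + 5 * FF (fun i => x (Sum.inl i)) +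
        SS (fun w => x (Sum.inr w)) : ℤ) = 4 * 8 ^ (m ^ a) := by
      unfold Yes at h
      linarith
    rw [PI_val hal, h1]
    push_cast
    rw [pow_succ]
    have h8 : (8 : ℝ) ^ m ^ a ≠ 0 := by positivity
    field_simp
    norm_num
  · have h1 : (2 * 8 ^ (m ^ a) + 5 * FF (fun i => x (Sum.inl i)) +
        SS (fun w => x (Sum.inr w)) : ℤ) = 0 := by
      unfold No at h
      linarith
    rw [PI_val hal, h1]
    simp
  · intro m z B
    by_cases h : InI a b m z
    · have e : ∀ x : Cube (m ^ a) → Bool,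
          pm a b m x B z = emb (m ^ a) B x (z.drop (2 ^ m ^ b + 1)) := by
        intro x
        unfold pm
        rw [if_pos h]
      rcases DE_form (m ^ a) B (z.drop (2 ^ m ^ b + 1)) with ⟨c, hc⟩ | ⟨i, c, hc⟩
      · exact Or.inl ⟨c, fun x => by rw [e, hc]⟩
      · exact Or.inr ⟨i, c, fun x => by rw [e, hc, Bool.xor_comm]⟩
    · exact Or.inl ⟨B z, fun x => PI_off m z x B h⟩
  · intro R
    refine ⟨fun z => if h : ∃ m, InI a b m z then base (z.drop (2 ^ h.choose ^ b + 1)) else R z,
      fun z hz => ?_, fun m => ?_⟩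
    · have h : ¬ ∃ m, InI a b m z := hz
      exact dif_neg h
    · rw [← hal.2.1 (m ^ a)]
      unfold alI
      refine hal.1 _ _ _ fun w hw => ?_
      unfold tlI
      have h1 : ∃ m', InI a b m' (List.replicate (2 ^ m ^ b) false ++ true :: w) :=
        ⟨m, PI_mem m w hw⟩
      have h2 : h1.choose = m := PI_inj hb _ _ _ h1.choose_spec (PI_mem m w hw)
      show (if h : ∃ m', InI a b m' (List.replicate (2 ^ m ^ b) false ++ true :: w) then
        base ((List.replicate (2 ^ m ^ b) false ++ true :: w).drop (2 ^ h.choose ^ b + 1))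
        else R (List.replicate (2 ^ m ^ b) false ++ true :: w)) = base w
      rw [dif_pos h1, h2, PI_drop]

end Pool.Agent.H516R2.EQP5
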