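import Pool.Agent.H516R2.EQP5.Props
import Pool.Agent.H516R2.EQP3.QU

/-! # Task QI: the circuits (helper819) -/

set_option autoImplicit false

namespace Pool.Agent.H516R2.EQP5

open Pool.Agent.NPC Pool.Agent.H620R2.Gauge Finset H568R2 Pool.Agent.H676 Pool.Agent.H516R2.EQP
  Pool.Agent.H516R2.EQP2 Pool.Agent.H516R2.EQP3 Pool.Agent.H516R2.EQP4

/-- the qubits which contain the prefix -/
def QI_pre (N κ : ℕ) : List ℕ := List.replicate N (6 + 3 * κ) ++ [1]

/-- the oracle seen by the circuits -/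
def QI_tl (N : ℕ) (A : Oracle) : Oracle := fun w => A (List.replicate N false ++ true :: w)

def QI_orc1 (N κ : ℕ) : Gate := Sum.inr (true, QI_pre N κ ++ (0 :: idxQ κ), 2)

def QI_orc2 (N κ : ℕ) : Gate := Sum.inr (true, QI_pre N κ ++ (1 :: idxQ κ), 2)

def QI_AG (N κ : ℕ) : List Gate :=
  (idxQ κ).map had ++ QI_orc1 N κ :: (midQ κ).map had ++ QI_orc2 N κ :: (idxQ κ).map had

def QI_AtG (N κ : ℕ) : List Gate :=
  (idxQ κ).map had ++ QI_orc2 N κ :: (midQ κ).map had ++ QI_orc1 N κ :: (idxQ κ).map had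

def QI_circ (N κ : ℕ) : List Unit × List Gate :=
  (List.replicate (6 + 3 * κ) (),
    prepG κ ++ QI_AG N κ ++ Pool.Agent.H516R2.EQP.refl κ :: QI_AtG N κ ++
      Pool.Agent.H516R2.EQP.refl κ :: QI_AG N κ ++ [fin κ])

/-! ### the acceptance probability -/

theorem QI_map (N κ : ℕ) {m : ℕ} (hm : ¬ 6 + 3 * κ < m) (q : List ℕ) (t : Fin m → Bool)
    (ht : rd t 1 = true) :
    (QI_pre N κ ++ q).map (rd t) = List.replicate N false ++ true :: q.map (rd t) := by
  have h1 : rd t (6 + 3 * κ) = false := by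
    unfold rd
    rw [dif_neg hm]
  unfold QI_pre
  rw [List.map_append, List.map_append, List.map_replicate, h1, List.map_cons, ht, List.map_nil,
    List.append_assoc]
  rfl

theorem QI_orc (A : Oracle) (N κ : ℕ) {m : ℕ} (hm : ¬ 6 + 3 * κ < m) (q : List ℕ)
    (ψ : (Fin m → Bool) → ℝ) (hψ : QU_S ψ) :
    gateAct A (Sum.inr (true, QI_pre N κ ++ q, 2)) ψ =
      gateAct (QI_tl N A) (Sum.inr (true, q, 2)) ψ := by
  funext s
  show ψ (flipIf (fun s => A ((QI_pre N κ ++ q).map (rd s))) 2 s) =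
    ψ (flipIf (fun s => QI_tl N A (q.map (rd s))) 2 s)
  by_cases hs : rd s 1 = true
  · congr 1
    unfold flipIf
    by_cases h2 : 2 < m
    · rw [dif_pos h2, dif_pos h2]
      simp only
      rw [QI_map N κ hm q _ (by rw [ql_rd_ne s 2 h2 _ 1 (by omega)]; exact hs)]
      rfl
    · rw [dif_neg h2, dif_neg h2]
  · have hs' : rd s 1 = false := by
      cases h : rd s 1
      · rfl
      · exact absurd h hs
    rw [hψ _ (by rw [QU_rd_flip _ 2 (by omega) s]; exact hs'),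
      hψ _ (by rw [QU_rd_flip _ 2 (by omega) s]; exact hs')]

/-- the gate lists `l` (relative to `A`) and `l'` (relative to `QI_tl N A`) do the same on states
with the support condition, and they preserve it -/
def QI_R (A : Oracle) (N m : ℕ) (l l' : List Gate) : Prop :=
  ∀ ψ : (Fin m → Bool) → ℝ, QU_S ψ →
    circAct A l ψ = circAct (QI_tl N A) l' ψ ∧ QU_S (circAct (QI_tl N A) l' ψ)

theorem QI_R_append {A : Oracle} {N : ℕ} {m : ℕ} {l1 l1' l2 l2' : List Gate}
    (h1 : QI_R A N m l1 l1') (h2 : QI_R A N m l2 l2') : QI_R A N m (l1 ++ l2) (l1' ++ l2') := by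
  intro ψ hψ
  rw [ql_append, ql_append, (h1 ψ hψ).1]
  exact h2 _ (h1 ψ hψ).2

theorem QI_R_nil (A : Oracle) (N : ℕ) (m : ℕ) : QI_R A N m [] [] := fun _ h => ⟨rfl, h⟩

theorem QI_R_cons {A : Oracle} {N : ℕ} {m : ℕ} {g g' : Gate} {l l' : List Gate}
    (h1 : ∀ ψ : (Fin m → Bool) → ℝ, QU_S ψ →
      gateAct A g ψ = gateAct (QI_tl N A) g' ψ ∧ QU_S (gateAct (QI_tl N A) g' ψ))
    (h2 : QI_R A N m l l') : QI_R A N m (g :: l) (g' :: l') := by
  intro ψ hψ
  change circAct A l (gateAct A g ψ) = circAct (QI_tl N A) l' (gateAct (QI_tl N A) g' ψ) ∧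
    QU_S (circAct (QI_tl N A) l' (gateAct (QI_tl N A) g' ψ))
  rw [(h1 ψ hψ).1]
  exact h2 _ (h1 ψ hψ).2

theorem QI_g_had (A : Oracle) (N : ℕ) {m : ℕ} (i : ℕ) (hi : i ≠ 1)
    (ψ : (Fin m → Bool) → ℝ) (hψ : QU_S ψ) :
    gateAct A (had i) ψ = gateAct (QI_tl N A) (had i) ψ ∧ QU_S (gateAct (QI_tl N A) (had i) ψ) :=
  ⟨rfl, QU_S_had _ i hi ψ hψ⟩

theorem QI_g_ctl (A : Oracle) (N : ℕ) {m : ℕ} (q : List ℕ) (k : ℕ) (hk : k ≠ 1)
    (ψ : (Fin m → Bool) → ℝ) (hψ : QU_S ψ) :
    gateAct A (Sum.inr (false, q, k)) ψ = gateAct (QI_tl N A) (Sum.inr (false, q, k)) ψ ∧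
      QU_S (gateAct (QI_tl N A) (Sum.inr (false, q, k)) ψ) :=
  ⟨rfl, QU_S_flip _ k hk ψ hψ⟩

theorem QI_g_orc (A : Oracle) (N κ : ℕ) {m : ℕ} (hm : ¬ 6 + 3 * κ < m) (q : List ℕ)
    (ψ : (Fin m → Bool) → ℝ) (hψ : QU_S ψ) :
    gateAct A (Sum.inr (true, QI_pre N κ ++ q, 2)) ψ =
      gateAct (QI_tl N A) (Sum.inr (true, q, 2)) ψ ∧
      QU_S (gateAct (QI_tl N A) (Sum.inr (true, q, 2)) ψ) :=
  ⟨QI_orc A N κ hm q ψ hψ, QU_S_flip _ 2 (by omega) ψ hψ⟩

theorem QI_R_had (A : Oracle) (N : ℕ) (m : ℕ) : ∀ l : List ℕ, (∀ i ∈ l, i ≠ 1) →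
    QI_R A N m (l.map had) (l.map had)
  | [], _ => QI_R_nil A N m
  | i :: l, h => QI_R_cons (fun ψ hψ => QI_g_had A N i (h i (by simp)) ψ hψ)
      (QI_R_had A N m l fun j hj => h j (by simp [hj]))

theorem QI_R_nt (A : Oracle) (N : ℕ) (m : ℕ) : ∀ l : List ℕ, (∀ i ∈ l, i ≠ 1) →
    QI_R A N m (l.map nt) (l.map nt)
  | [], _ => QI_R_nil A N m
  | i :: l, h => QI_R_cons (fun ψ hψ => QI_g_ctl A N [] i (h i (by simp)) ψ hψ)
      (QI_R_nt A N m l fun j hj => h j (by simp [hj]))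

theorem QI_R_A (A : Oracle) (N κ : ℕ) {m : ℕ} (hm : ¬ 6 + 3 * κ < m) :
    QI_R A N m (QI_AG N κ) (AG κ) := by
  unfold QI_AG AG
  exact QI_R_append (QI_R_append (QI_R_had A N m _ (QU_idx_ne _))
    (QI_R_cons (fun ψ hψ => QI_g_orc A N κ hm _ ψ hψ) (QI_R_had A N m _ (QU_mid_ne _))))
    (QI_R_cons (fun ψ hψ => QI_g_orc A N κ hm _ ψ hψ) (QI_R_had A N m _ (QU_idx_ne _)))

theorem QI_R_At (A : Oracle) (N κ : ℕ) {m : ℕ} (hm : ¬ 6 + 3 * κ < m) :
    QI_R A N m (QI_AtG N κ) (AtG κ) := by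
  unfold QI_AtG AtG
  exact QI_R_append (QI_R_append (QI_R_had A N m _ (QU_idx_ne _))
    (QI_R_cons (fun ψ hψ => QI_g_orc A N κ hm _ ψ hψ) (QI_R_had A N m _ (QU_mid_ne _))))
    (QI_R_cons (fun ψ hψ => QI_g_orc A N κ hm _ ψ hψ) (QI_R_had A N m _ (QU_idx_ne _)))

theorem QI_R_tail (A : Oracle) (N κ : ℕ) {m : ℕ} (hm : ¬ 6 + 3 * κ < m) :
    QI_R A N m (QU_tail κ (QI_AG N κ) (QI_AtG N κ)) (QU_tail κ (AG κ) (AtG κ)) := by
  unfold QU_tail
  refine QI_R_append (QI_R_append (QI_R_append (QI_R_append ?_ (QI_R_A A N κ hm))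
    (QI_R_cons (fun ψ hψ => QI_g_ctl A N _ 2 (by omega) ψ hψ) (QI_R_At A N κ hm)))
    (QI_R_cons (fun ψ hψ => QI_g_ctl A N _ 2 (by omega) ψ hψ) (QI_R_A A N κ hm)))
    (QI_R_cons (fun ψ hψ => QI_g_ctl A N _ 0 (by omega) ψ hψ) (QI_R_nil A N m))
  exact QI_R_cons (fun ψ hψ => QI_g_ctl A N [] 2 (by omega) ψ hψ)
    (QI_R_cons (fun ψ hψ => QI_g_had A N 2 (by omega) ψ hψ) (QI_R_nt A N m _ (QU_idx_ne _)))

theorem QI_acc (A : Oracle) (N κ : ℕ) :
    accProb A (QI_circ N κ) = accProb (QI_tl N A) (circ κ) := by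
  have hlen : (circ κ).1.length = 6 + 3 * κ := by
    show (List.replicate (6 + 3 * κ) ()).length = _
    rw [List.length_replicate]
  have hm : ¬ 6 + 3 * κ < (circ κ).1.length := by
    rw [hlen]
    omega
  have hm1 : 1 < (circ κ).1.length := by
    rw [hlen]
    omega
  have h := (QI_R_tail A N κ hm _ (QU_init A hm1)).1
  have e1 : circAct A (QI_circ N κ).2 (initSt (circ κ).1.length) =
      circAct A (QU_tail κ (QI_AG N κ) (QI_AtG N κ))
        (gateAct A (nt 1) (initSt (circ κ).1.length)) := rfl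
  have e2 : circAct (QI_tl N A) (circ κ).2 (initSt (circ κ).1.length) =
      circAct (QI_tl N A) (QU_tail κ (AG κ) (AtG κ))
        (gateAct A (nt 1) (initSt (circ κ).1.length)) := rfl
  change (∑ s : Fin (circ κ).1.length → Bool,
    if rd s 0 then circAct A (QI_circ N κ).2 (initSt (circ κ).1.length) s ^ 2 else 0) = _
  rw [e1, h, ← e2]
  rfl

/-! ### number of questions -/

theorem QI_cnt_A (N κ : ℕ) : QC_cnt (QI_AG N κ) = 2 := by
  unfold QI_AG QI_orc1 QI_orc2
  rw [QC_cnt_append, QC_cnt_append, QC_cnt_true, QC_cnt_true, QC_cnt_had, QC_cnt_had]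

theorem QI_cnt_At (N κ : ℕ) : QC_cnt (QI_AtG N κ) = 2 := by
  unfold QI_AtG QI_orc1 QI_orc2
  rw [QC_cnt_append, QC_cnt_append, QC_cnt_true, QC_cnt_true, QC_cnt_had, QC_cnt_had]

theorem QI_queries (N κ : ℕ) : queries (QI_circ N κ) = 6 := by
  show QC_cnt (prepG κ ++ QI_AG N κ ++ Pool.Agent.H516R2.EQP.refl κ :: QI_AtG N κ ++
    Pool.Agent.H516R2.EQP.refl κ :: QI_AG N κ ++ [fin κ]) = 6
  unfold Pool.Agent.H516R2.EQP.refl fin
  rw [QC_cnt_append, QC_cnt_append, QC_cnt_append, QC_cnt_append, QC_cnt_false, QC_cnt_false,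
    QC_cnt_false, QC_cnt_prep, QI_cnt_A, QI_cnt_At, QC_cnt_nil]

/-! ### the number of the block -/

/-- the integer part of the `b`-th root of the logarithm of the length of `x` -/
def QI_m (b : ℕ) (x : List Bool) : ℕ :=
  ((List.range x.length).filter (fun k => decide ((k + 1) ^ b + 1 ≤ x.length.bits.length))).length

theorem QI_pow {f : List Bool × ℕ → ℕ} (hf : NPC.Poly f) (b : ℕ) :
    NPC.Poly (fun z => f z ^ b) := by
  induction b with
  | zero => exact (NPC.Poly.const 1).congr fun z => by rw [pow_zero]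
  | succ b ih => exact (NPC.Poly.mul ih hf).congr fun z => by rw [pow_succ]

theorem QI_mP (b : ℕ) : UPoly (QI_m b) := by
  have h1 : NPC.Poly (fun x : List Bool => x.length.bits.length) :=
    NPC.Poly.length (NPC.Poly.natBits (NPC.Poly.length NPC.Poly.id))
  have h2 : NPC.Poly (fun x : List Bool => List.range x.length) := UPoly.range QC_len
  have h3 : NPC.Poly (fun z : List Bool × ℕ => z.2 + 1) :=
    NPC.Poly.succ (NPC.Poly.snd NPC.Poly.id)
  have h4 : NPC.Poly (fun z : List Bool × ℕ =>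
      decide ((z.2 + 1) ^ b + 1 ≤ z.1.length.bits.length)) :=
    NPC.Poly.decide_le (NPC.Poly.succ (QI_pow h3 b)) (h1.comp (NPC.Poly.fst NPC.Poly.id))
  exact UPoly.length (NPC.Poly.filter
    (p := fun (x : List Bool) (k : ℕ) => decide ((k + 1) ^ b + 1 ≤ x.length.bits.length)) h2 h4)

theorem QI_cnt_lt (m : ℕ) : ∀ N : ℕ,
    ((List.range N).filter (fun k => decide (k < m))).length = min N m
  | 0 => by simp
  | N + 1 => by
    rw [List.range_succ, List.filter_append, List.length_append, QI_cnt_lt m N]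
    by_cases h : N < m
    · have e : ([N].filter (fun k => decide (k < m))).length = 1 := by simp [h]
      rw [e]
      omega
    · have e : ([N].filter (fun k => decide (k < m))).length = 0 := by simp [h]
      rw [e]
      omega

theorem QI_m_eq (b m : ℕ) (hb : 1 ≤ b) (x : List Bool) (hx : x.length = 2 ^ m ^ b) :
    QI_m b x = m := by
  unfold QI_m
  rw [hx, Nat.size_eq_bits_len, Nat.size_pow]
  have e : (fun k : ℕ => decide ((k + 1) ^ b + 1 ≤ m ^ b + 1)) = fun k => decide (k < m) := by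
    funext k
    have : ((k + 1) ^ b + 1 ≤ m ^ b + 1) ↔ k < m := by
      rw [Nat.add_le_add_iff_right, Nat.pow_le_pow_iff_left (by omega)]
      omega
    exact decide_eq_decide.2 this
  rw [e, QI_cnt_lt]
  have h1 : m ≤ m ^ b := Nat.le_self_pow (by omega) m
  have h2 : m ^ b < 2 ^ m ^ b := Nat.lt_two_pow_self
  omega

/-! ### polynomial time -/

theorem QI_rep {κ : List Bool → ℕ} (hκ : UPoly κ) :
    NPC.Poly (fun x : List Bool => List.replicate (κ x) true) :=
  (NPC.Poly.map (F := fun (_ : List Bool) (_ : Unit) => true) hκ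
    (NPC.Poly.const true)).congr fun u => by simp

theorem QI_lift {β : Type} [TEnc β] {f : ℕ → β} (hf : NPC.Poly (fun x : List Bool => f x.length))
    {κ : List Bool → ℕ} (hκ : UPoly κ) : NPC.Poly (fun x : List Bool => f (κ x)) :=
  (NPC.Poly.comp hf (QI_rep hκ)).congr fun x => by
    show f (List.replicate (κ x) true).length = f (κ x)
    rw [List.length_replicate]

theorem QI_nU {κ : List Bool → ℕ} (hκ : UPoly κ) : UPoly (fun x : List Bool => 6 + 3 * κ x) :=
  UPoly.add (UPoly.const 6) (UPoly.mul (UPoly.const 3) hκ)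

theorem QI_preP {κ : List Bool → ℕ} (hκ : UPoly κ) :
    NPC.Poly (fun x : List Bool => QI_pre x.length (κ x)) :=
  (NPC.Poly.append (NPC.Poly.map (F := fun (x : List Bool) (_ : Bool) => 6 + 3 * κ x)
    NPC.Poly.id ((QI_nU hκ).toPoly.comp (NPC.Poly.fst NPC.Poly.id)))
      (NPC.Poly.const [1])).congr fun x => by
    unfold QI_pre
    rw [List.map_const']

theorem QI_orc1P {κ : List Bool → ℕ} (hκ : UPoly κ) :
    NPC.Poly (fun x : List Bool => QI_orc1 x.length (κ x)) :=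
  QC_gate true (NPC.Poly.append (QI_preP hκ) (NPC.Poly.cons (NPC.Poly.const 0)
    (QI_lift QC_idx hκ))) 2

theorem QI_orc2P {κ : List Bool → ℕ} (hκ : UPoly κ) :
    NPC.Poly (fun x : List Bool => QI_orc2 x.length (κ x)) :=
  QC_gate true (NPC.Poly.append (QI_preP hκ) (NPC.Poly.cons (NPC.Poly.const 1)
    (QI_lift QC_idx hκ))) 2

theorem QI_AP {κ : List Bool → ℕ} (hκ : UPoly κ) :
    NPC.Poly (fun x : List Bool => QI_AG x.length (κ x)) := by
  have h : NPC.Poly (fun x : List Bool => (idxQ (κ x)).map had ++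
      QI_orc1 x.length (κ x) :: (midQ (κ x)).map had ++
      QI_orc2 x.length (κ x) :: (idxQ (κ x)).map had) :=
    NPC.Poly.append (NPC.Poly.append (QC_had (QI_lift QC_idx hκ)) (NPC.Poly.cons (QI_orc1P hκ)
      (QC_had (QI_lift QC_mid hκ)))) (NPC.Poly.cons (QI_orc2P hκ) (QC_had (QI_lift QC_idx hκ)))
  exact h

theorem QI_AtP {κ : List Bool → ℕ} (hκ : UPoly κ) :
    NPC.Poly (fun x : List Bool => QI_AtG x.length (κ x)) := by
  have h : NPC.Poly (fun x : List Bool => (idxQ (κ x)).map had ++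
      QI_orc2 x.length (κ x) :: (midQ (κ x)).map had ++
      QI_orc1 x.length (κ x) :: (idxQ (κ x)).map had) :=
    NPC.Poly.append (NPC.Poly.append (QC_had (QI_lift QC_idx hκ)) (NPC.Poly.cons (QI_orc2P hκ)
      (QC_had (QI_lift QC_mid hκ)))) (NPC.Poly.cons (QI_orc1P hκ) (QC_had (QI_lift QC_idx hκ)))
  exact h

theorem QI_circP {κ : List Bool → ℕ} (hκ : UPoly κ) :
    NPC.Poly (fun x : List Bool => QI_circ x.length (κ x)) := by
  have hr : NPC.Poly (fun x : List Bool => Pool.Agent.H516R2.EQP.refl (κ x)) :=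
    QI_lift QC_refl hκ
  have hf : NPC.Poly (fun x : List Bool => fin (κ x)) := QI_lift QC_fin hκ
  have hp : NPC.Poly (fun x : List Bool => prepG (κ x)) := QI_lift QC_prep hκ
  have h : NPC.Poly (fun x : List Bool => ((List.replicate (6 + 3 * κ x) () : List Unit),
      prepG (κ x) ++ QI_AG x.length (κ x) ++ Pool.Agent.H516R2.EQP.refl (κ x) ::
        QI_AtG x.length (κ x) ++ Pool.Agent.H516R2.EQP.refl (κ x) :: QI_AG x.length (κ x) ++
        [fin (κ x)])) := by
    refine NPC.Poly.pair (QI_nU hκ) ?_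
    exact NPC.Poly.append (NPC.Poly.append (NPC.Poly.append (NPC.Poly.append hp (QI_AP hκ))
      (NPC.Poly.cons hr (QI_AtP hκ))) (NPC.Poly.cons hr (QI_AP hκ)))
      (NPC.Poly.cons hf (NPC.Poly.const []))
  exact h

theorem QI_twoP {n : List Bool → ℕ} (hn : UPoly n) : NPC.Poly (fun x : List Bool => 2 ^ n x) := by
  have h1 : NPC.Poly (fun x : List Bool => List.replicate (n x) false) :=
    (NPC.Poly.map (F := fun (_ : List Bool) (_ : Unit) => false) hn
      (NPC.Poly.const false)).congr fun u => by simp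
  exact (NPC.Poly.valBits (NPC.Poly.append h1 (NPC.Poly.const [true]))).congr fun x => by
    rw [valB_replicate_false]
    simp

theorem QI_powU {n : List Bool → ℕ} (hn : UPoly n) (a : ℕ) :
    UPoly (fun x : List Bool => n x ^ a) := by
  have h := UPoly.eval hn (Polynomial.X ^ a)
  simpa using h

/-- the circuit -/
def QI_C (a b : ℕ) (x : List Bool) : List Unit × List Gate :=
  bif decide (x.length = 2 ^ (QI_m b x) ^ b) then QI_circ x.length ((QI_m b x) ^ a)
  else ([()], [])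

theorem QI_CP (a b : ℕ) : NPC.Poly (QI_C a b) := by
  have h1 : NPC.Poly (fun x : List Bool => decide (x.length = 2 ^ (QI_m b x) ^ b)) :=
    NPC.Poly.decide_eq (NPC.Poly.length NPC.Poly.id) (QI_twoP (QI_powU (QI_mP b) b))
  exact NPC.Poly.cond h1 (QI_circP (QI_powU (QI_mP b) a)) (NPC.Poly.const _)

theorem QI_acc0 (A : Oracle) : accProb A (([()], []) : List Unit × List Gate) = 0 := by
  show (∑ s : Fin 1 → Bool, if rd s 0 then (initSt 1 s) ^ 2 else 0) = 0
  refine Finset.sum_eq_zero fun s _ => ?_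
  by_cases h : rd s 0 = true
  · rw [if_pos h]
    have h1 : initSt 1 s = 0 := by
      unfold initSt
      rw [if_neg]
      intro hs
      rw [hs] at h
      unfold rd at h
      simp at h
    rw [h1]
    norm_num
  · rw [if_neg h]

theorem QI (hqf : St_QF) : St_QI := by
  intro a b hb
  refine ⟨QI_C a b, polyTime_bits (QI_CP a b), fun x => ⟨?_, ?_, ?_⟩⟩
  · unfold QI_C
    cases decide (x.length = 2 ^ (QI_m b x) ^ b)
    · show queries (([()], []) : List Unit × List Gate) ≤ 6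
      unfold queries
      simp
    · exact (QI_queries _ _).le
  · intro m hx A
    have hm := QI_m_eq b m hb x hx
    have h1 : QI_C a b x = QI_circ (2 ^ m ^ b) (m ^ a) := by
      unfold QI_C
      rw [hm, hx]
      simp
    rw [h1, QI_acc, hqf]
    rfl
  · intro h A
    have h1 : QI_C a b x = ([()], []) := by
      unfold QI_C
      have h2 : decide (x.length = 2 ^ (QI_m b x) ^ b) = false := decide_eq_false (h _)
      rw [h2]
      rfl
    rw [h1, QI_acc0]

end Pool.Agent.H516R2.EQP5
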