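import Pool.Agent.H516R2.EQP5.Props
import Pool.Agent.H620R2.Gauge.Q

/-! SI: there are few strings in the blocks (helper152) -/

set_option autoImplicit false

namespace Pool.Agent.H516R2.EQP5

open Pool.Agent.NPC Pool.Agent.H620R2.Gauge Finset H568R2 Pool.Agent.H676 Pool.Agent.H516R2.EQP
  Pool.Agent.H516R2.EQP2 Pool.Agent.H516R2.EQP3 Pool.Agent.H516R2.EQP4

theorem SI_block (a b m N : ℕ) :
    ((Finset.range N).filter (fun i => InI a b m (str i))).card ≤ 2 ^ (5 + 3 * m ^ a) := by
  have h1 : ((Finset.range N).filter (fun i => InI a b m (str i))).card ≤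
      (Finset.range (2 ^ (5 + 3 * m ^ a))).card := by
    apply Finset.card_le_card_of_injOn (fun i => idx ((str i).drop (2 ^ m ^ b + 1)))
    · intro i hi
      have hi2 := (Finset.mem_filter.1 hi).2
      have h2 := idx_lt ((str i).drop (2 ^ m ^ b + 1))
      have h3 : ((str i).drop (2 ^ m ^ b + 1)).length = 4 + 3 * m ^ a := by
        rw [List.length_drop, hi2.2]
        omega
      rw [h3] at h2
      rw [Finset.mem_coe, Finset.mem_range]
      have h4 : 4 + 3 * m ^ a + 1 = 5 + 3 * m ^ a := by ring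
      rw [h4] at h2
      beta_reduce
      omega
    · intro i hi j hj hij
      have hi2 := (Finset.mem_filter.1 hi).2
      have hj2 := (Finset.mem_filter.1 hj).2
      have h2 : (str i).drop (2 ^ m ^ b + 1) = (str j).drop (2 ^ m ^ b + 1) := by
        have := congrArg str hij
        simp only [str_idx] at this
        exact this
      apply str_injective
      rw [← List.take_append_drop (2 ^ m ^ b + 1) (str i),
        ← List.take_append_drop (2 ^ m ^ b + 1) (str j), h2, hi2.1, hj2.1]
  rwa [Finset.card_range] at h1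

open Classical in
theorem SI_count (a b M N : ℕ) (ha : 1 ≤ a)
    (hM : ∀ i < N, ∀ m, InI a b m (str i) → m ≤ M) :
    ((Finset.range N).filter (fun i => str i ∈ TI a b)).card ≤ 2 ^ (5 + 4 * M ^ a) := by
  have h1 : (Finset.range N).filter (fun i => str i ∈ TI a b) ⊆
      (Finset.range (M + 1)).biUnion (fun m => (Finset.range N).filter
        (fun i => InI a b m (str i))) := by
    intro i hi
    rw [Finset.mem_filter, Finset.mem_range] at hi
    obtain ⟨hi1, m, hm⟩ := hi
    rw [Finset.mem_biUnion]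
    exact ⟨m, Finset.mem_range.2 (by have := hM i hi1 m hm; omega),
      Finset.mem_filter.2 ⟨Finset.mem_range.2 hi1, hm⟩⟩
  refine (Finset.card_le_card h1).trans ?_
  refine Finset.card_biUnion_le.trans ?_
  have h2 : ∑ m ∈ Finset.range (M + 1), ((Finset.range N).filter
      (fun i => InI a b m (str i))).card ≤ ∑ m ∈ Finset.range (M + 1), 2 ^ (5 + 3 * M ^ a) := by
    refine Finset.sum_le_sum fun m hm => ?_
    refine (SI_block a b m N).trans ?_
    apply Nat.pow_le_pow_right (by norm_num)
    have : m ^ a ≤ M ^ a := Nat.pow_le_pow_left (by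
      have := Finset.mem_range.1 hm
      omega) a
    omega
  refine h2.trans ?_
  rw [Finset.sum_const, Finset.card_range, smul_eq_mul]
  have h3 : M + 1 ≤ 2 ^ M := Nat.lt_two_pow_self
  have h4 : M ≤ M ^ a := Nat.le_self_pow (by omega) _
  calc (M + 1) * 2 ^ (5 + 3 * M ^ a) ≤ 2 ^ M * 2 ^ (5 + 3 * M ^ a) :=
        Nat.mul_le_mul_right _ h3
    _ = 2 ^ (M + (5 + 3 * M ^ a)) := by rw [← pow_add]
    _ ≤ 2 ^ (5 + 4 * M ^ a) := Nat.pow_le_pow_right (by norm_num) (by omega)

theorem SI : St_SI := by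
  classical
  intro ε hε
  obtain ⟨b, hb⟩ := exists_nat_gt (2 / ε)
  have hb0 : 1 ≤ b := by
    have h1 : (0 : ℝ) < b := lt_trans (by positivity) hb
    exact_mod_cast h1
  have hbpos : (0 : ℝ) < b := by exact_mod_cast hb0
  refine ⟨b + 1, b, hb0, Nat.lt_succ_self b, ?_⟩
  -- the limit
  have hlim : Filter.Tendsto (fun N : ℕ => Real.logb 2 (Real.logb 2 (N : ℝ))) Filter.atTop
      Filter.atTop :=
    (Real.tendsto_logb_atTop (by norm_num)).comp
      ((Real.tendsto_logb_atTop (by norm_num)).comp tendsto_natCast_atTop_atTop)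
  have hpow : Filter.Tendsto (fun x : ℝ => x ^ (ε / 2)) Filter.atTop Filter.atTop :=
    tendsto_rpow_atTop (by positivity)
  filter_upwards [hlim.eventually_ge_atTop 1, (hpow.comp hlim).eventually_ge_atTop 9] with N h1 h9
  set l : ℝ := Real.logb 2 (Real.logb 2 (N : ℝ)) with hl
  have h9' : 9 ≤ l ^ (ε / 2) := h9
  have hl0 : 0 < l := by linarith
  -- positivity of the inner logarithm
  have hN0 : N ≠ 0 := by
    rintro rfl
    simp [hl] at h1
    norm_num at h1
  have hNpos : (0 : ℝ) < N := by positivity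
  set M : ℕ := ⌊l ^ (1 / (b : ℝ))⌋₊ with hM
  have hMle : (M : ℝ) ≤ l ^ (1 / (b : ℝ)) := Nat.floor_le (by positivity)
  have hbound : ∀ i < N, ∀ m, InI (b + 1) b m (str i) → m ≤ M := by
    intro i hi m hm
    have e1 : 2 ^ (str i).length ≤ N := by
      have := le_idx (str i)
      rw [idx_str] at this
      omega
    have e2 : ((str i).length : ℝ) ≤ Real.logb 2 N := by
      rw [Real.le_logb_iff_rpow_le (by norm_num) hNpos, Real.rpow_natCast]
      exact_mod_cast e1
    have e3 : 2 ^ m ^ b ≤ (str i).length := by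
      rw [hm.2]
      omega
    have e4 : ((2 : ℝ) ^ (m ^ b)) ≤ Real.logb 2 N := by
      refine le_trans ?_ e2
      exact_mod_cast e3
    have e5 : ((m ^ b : ℕ) : ℝ) ≤ l := by
      rw [hl, Real.le_logb_iff_rpow_le (by norm_num) (lt_of_lt_of_le (by positivity) e4),
        Real.rpow_natCast]
      exact e4
    rw [hM]
    apply Nat.le_floor
    have e6 : (m : ℝ) = (((m ^ b : ℕ) : ℝ)) ^ (1 / (b : ℝ)) := by
      push_cast
      rw [one_div, Real.pow_rpow_inv_natCast (Nat.cast_nonneg _) (by omega)]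
    rw [e6]
    exact Real.rpow_le_rpow (Nat.cast_nonneg _) e5 (by positivity)
  have hcount := SI_count (b + 1) b M N (by omega) hbound
  have hexp : (5 : ℝ) + 4 * (M : ℝ) ^ (b + 1) ≤ l ^ (1 + ε) := by
    have e1 : (M : ℝ) ^ (b + 1) ≤ l ^ (1 + ε / 2) := by
      calc (M : ℝ) ^ (b + 1) ≤ (l ^ (1 / (b : ℝ))) ^ (b + 1) :=
            pow_le_pow_left₀ (Nat.cast_nonneg _) hMle _
        _ = l ^ (1 / (b : ℝ) * ((b + 1 : ℕ) : ℝ)) := by
            rw [← Real.rpow_natCast, ← Real.rpow_mul hl0.le]
        _ ≤ l ^ (1 + ε / 2) := by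
            apply Real.rpow_le_rpow_of_exponent_le h1
            push_cast
            have e2 : 1 / (b : ℝ) * (b + 1) = 1 + 1 / b := by field_simp
            rw [e2]
            have e3 : 1 / (b : ℝ) ≤ ε / 2 := by
              rw [div_le_div_iff₀ hbpos (by norm_num)]
              have e4 := (div_lt_iff₀ hε).1 hb
              linarith
            linarith
    have e2 : (1 : ℝ) ≤ l ^ (1 + ε / 2) := Real.one_le_rpow h1 (by positivity)
    calc (5 : ℝ) + 4 * (M : ℝ) ^ (b + 1) ≤ 9 * l ^ (1 + ε / 2) := by linarith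
      _ ≤ l ^ (ε / 2) * l ^ (1 + ε / 2) := mul_le_mul_of_nonneg_right h9' (by linarith)
      _ = l ^ (1 + ε) := by
          rw [← Real.rpow_add hl0]
          congr 1
          ring
  calc (((Finset.range N).filter (fun i => str i ∈ TI (b + 1) b)).card : ℝ) ≤
        ((2 ^ (5 + 4 * M ^ (b + 1)) : ℕ) : ℝ) := by exact_mod_cast hcount
    _ = (2 : ℝ) ^ ((5 : ℝ) + 4 * (M : ℝ) ^ (b + 1)) := by
        push_cast
        rw [← Real.rpow_natCast]
        push_cast
        rfl
    _ ≤ 2 ^ l ^ (1 + ε) := Real.rpow_le_rpow_of_exponent_le (by norm_num) hexp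

end Pool.Agent.H516R2.EQP5
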