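import Pool.Agent.H516R2.EQP3.AllZ
import Pool.Agent.H516R2.EQP4.NNg
import Pool.Agent.H516R2.EQP5.H2t
import Pool.Agent.H516R2.EQP5.AT
import Pool.Agent.H516R2.EQP5.PI
import Pool.Agent.H516R2.EQP5.GI
import Pool.Agent.H516R2.EQP5.QI
import Pool.Agent.H516R2.EQP5.IS
import Pool.Agent.H516R2.EQP5.IG
import Pool.Agent.H516R2.EQP5.SI
import Pool.Agent.H516R2.EQP5.IH

/-! The assembly of the fifth part. -/

namespace Pool.Agent.H516R2.EQP5

open Pool.Agent.H516R2.EQP Pool.Agent.H516R2.EQP2 Pool.Agent.H516R2.EQP3 Pool.Agent.H516R2.EQP4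

theorem all_PI : St_PI := PI AL

theorem all_IS : St_IS := IS all_PI (H2t B (L2p L1) (Z3p Z1 Z2) all_CM) AT (GI all_PI)

theorem all_IG : St_IG := IG all_PI (QI (task_QF QL QG)) all_IS DG LL DQ

theorem all_IH : St_IH := IH all_IG SI NNg

end Pool.Agent.H516R2.EQP5
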