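import Pool.Agent.H516R2.EQP4.Props

/-!
# Exact quantum polynomial time outside the polynomial hierarchy for many oracles:
objects and statements

Task `X` is the file `Pool/Agent/H516R2/EQP5/X.lean`; it imports this file, works in the namespace
`Pool.Agent.H516R2.EQP5` and proves `theorem X (h : St_Y) ... : St_X`.
-/

set_option autoImplicit false

namespace Pool.Agent.H516R2.EQP5

open Pool.Agent.NPC Pool.Agent.H620R2.Gauge Finset H568R2 Pool.Agent.H676 Pool.Agent.H516R2.EQP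
  Pool.Agent.H516R2.EQP2 Pool.Agent.H516R2.EQP3 Pool.Agent.H516R2.EQP4

/-- every good function errs, explicit conditions on the parameters -/
def St_H2t : Prop := ∀ (κ t J : ℕ), 20 ≤ κ → 1 ≤ t → t ≤ 4 ^ κ →
  1200 * (((24 * (t : ℝ)) ^ J) ^ 2 * ((t : ℝ) ^ 2 + 1)) / 2 ^ κ + 210000 / 16 ^ κ ≤ 1 / 100 →
  68 * 4 ^ κ * (1 - (1 / (24 * (t : ℝ))) ^ J) ^ (2 ^ κ / 200) ≤ 1 / 100 →
  ∀ h : (Cube κ → Bool) → Bool, Goods κ t J h →
  (∃ a, Yes a ∧ h a = false) ∨ ∃ a, No a ∧ h a = true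

/-- asymptotics -/
def St_AT : Prop := ∀ (a b J : ℕ) (P : Polynomial ℕ), 1 ≤ b → b < a → ∃ m₀ : ℕ, ∀ m ≥ m₀,
  20 ≤ m ^ a ∧ m ^ a ≤ 2 ^ m ^ b ∧ P.eval (2 ^ m ^ b) ≤ 4 ^ m ^ a ∧
  ∀ t : ℕ, t = P.eval (2 ^ m ^ b) → 1 ≤ t →
    1200 * (((24 * (t : ℝ)) ^ J) ^ 2 * ((t : ℝ) ^ 2 + 1)) / 2 ^ m ^ a + 210000 / 16 ^ m ^ a ≤
      1 / 100 ∧
    68 * 4 ^ m ^ a * (1 - (1 / (24 * (t : ℝ))) ^ J) ^ (2 ^ m ^ a / 200) ≤ 1 / 100

/-- `z` is a string of the block number `m` -/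
def InI (a b m : ℕ) (z : List Bool) : Prop :=
  z.take (2 ^ m ^ b + 1) = List.replicate (2 ^ m ^ b) false ++ [true] ∧
    z.length = 2 ^ m ^ b + 5 + 3 * m ^ a

instance (a b m : ℕ) (z : List Bool) : Decidable (InI a b m z) :=
  inferInstanceAs (Decidable (_ ∧ _))

/-- the strings of the blocks -/
def TI (a b : ℕ) : Set (List Bool) := {z | ∃ m, InI a b m z}

/-- the oracle seen by the circuits for the block `m` -/
def tlI (b m : ℕ) (A : Oracle) : Oracle := fun w =>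
  A (List.replicate (2 ^ m ^ b) false ++ true :: w)

/-- put the instance `x` into the block `m` -/
def pm (a b m : ℕ) (x : Cube (m ^ a) → Bool) (B : Oracle) : Oracle := fun z =>
  if InI a b m z then emb (m ^ a) B x (z.drop (2 ^ m ^ b + 1)) else B z

/-- the number computed by the circuits for the block `m` -/
noncomputable def alI (a b m : ℕ) (A : Oracle) : ℝ := alpha (tlI b m A) (m ^ a)

/-- facts about the blocks -/
def St_PI : Prop := ∀ a b : ℕ, 1 ≤ b →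
  (∀ (m m' : ℕ) (z : List Bool), InI a b m z → InI a b m' z → m = m') ∧
  (∀ (m : ℕ) (z : List Bool) (x : Cube (m ^ a) → Bool) (B : Oracle), ¬ InI a b m z →
    pm a b m x B z = B z) ∧
  (∀ (m : ℕ) (A A' : Oracle), (∀ z, InI a b m z → A z = A' z) → alI a b m A = alI a b m A') ∧
  (∀ (m : ℕ) (x : Cube (m ^ a) → Bool) (B : Oracle),
    (Yes x → alI a b m (pm a b m x B) = 1 / 2) ∧ (No x → alI a b m (pm a b m x B) = 0)) ∧
  (∀ (m : ℕ) (z : List Bool) (B : Oracle),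
    (∃ c, ∀ x : Cube (m ^ a) → Bool, pm a b m x B z = c) ∨
    ∃ (i : Cube (m ^ a)) (c : Bool), ∀ x : Cube (m ^ a) → Bool, pm a b m x B z = (x i ^^ c)) ∧
  ∀ R : Oracle, ∃ B : Oracle, (∀ z, z ∉ TI a b → B z = R z) ∧ ∀ m, alI a b m B = 0

/-- quantified oracle algorithms are good functions of the content of a block -/
def St_GI : Prop := ∀ (a b : ℕ) (M : Alg) (k : ℕ) (p q : Polynomial ℕ), ∃ P : Polynomial ℕ,
  ∀ m : ℕ, m ^ a ≤ 2 ^ m ^ b → ∀ (y : List Bool) (l : ℕ), y.length ≤ q.eval (2 ^ m ^ b) →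
    l ≤ p.eval (2 ^ m ^ b) → 1 ≤ P.eval (2 ^ m ^ b) ∧ ∀ (B : Oracle) (b' c : Bool),
      Goods (m ^ a) (P.eval (2 ^ m ^ b)) k (fun x => QO M l k b' y (pm a b m x B) ^^ c)

/-- the circuits -/
def St_QI : Prop := ∀ a b : ℕ, 1 ≤ b → ∃ C : List Bool → List Unit × List Gate,
  PolyTime (fun x => bits (C x)) ∧ ∀ x : List Bool, queries (C x) ≤ 6 ∧
    (∀ m : ℕ, x.length = 2 ^ m ^ b → ∀ A : Oracle,
      accProb A (C x) = (4 * alI a b m A ^ 3 - 3 * alI a b m A) ^ 2) ∧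
    ((∀ m : ℕ, x.length ≠ 2 ^ m ^ b) → ∀ A : Oracle, accProb A (C x) = 0)

/-- the language -/
def LI (a b : ℕ) (B : Oracle) : Set (List Bool) :=
  {x | ∃ m : ℕ, x.length = 2 ^ m ^ b ∧ alI a b m B = 1 / 2}

/-- one step of the construction -/
def St_IS : Prop := ∀ (a b : ℕ), 1 ≤ b → b < a → ∀ (M : Alg) (p : Polynomial ℕ) (k : ℕ)
  (B : Oracle) (N : ℕ), ∃ (m : ℕ) (x : Cube (m ^ a) → Bool) (y : List Bool), (Yes x ∨ No x) ∧
    (∀ z : List Bool, z.length ≤ N → ¬ InI a b m z) ∧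
    ¬ (QO M (p.eval y.length) k true y (pm a b m x B) = true ↔ y ∈ LI a b (pm a b m x B))

/-- every oracle can be changed at the strings of the blocks -/
def St_IG : Prop := ∀ (a b : ℕ), 1 ≤ b → b < a → ∀ R : Oracle, ∃ A : Oracle,
  (∀ y, y ∉ TI a b → A y = R y) ∧ ∃ L, IsEQP 6 A L ∧ ¬ IsPH A L

open Classical in
/-- there are few strings in the blocks -/
def St_SI : Prop := ∀ ε : ℝ, 0 < ε → ∃ a b : ℕ, 1 ≤ b ∧ b < a ∧ ∀ᶠ N : ℕ in Filter.atTop,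
  (((Finset.range N).filter (fun i => str i ∈ TI a b)).card : ℝ) ≤
    2 ^ (Real.logb 2 (Real.logb 2 N)) ^ (1 + ε)

/-- the theorem -/
def St_IH : Prop := ∀ (f : ℕ → ℝ) (ε : ℝ), 0 < ε →
  (∀ᶠ N : ℕ in Filter.atTop, 2 ^ (Real.logb 2 (Real.logb 2 N)) ^ (1 + ε) ≤ f N) →
  ¬ Null f {A : Oracle | ∃ L, IsEQP 6 A L ∧ ¬ IsPH A L}

end Pool.Agent.H516R2.EQP5
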